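import Pool.Agent.K3h2.LT.Stm

/-!
# Convergence of the orbit from the energy inequality (brick DYN)
-/

set_option autoImplicit false

open Filter Topology

namespace Pool.Agent.K3h35.LT

open Pool.Agent.K3h2.LT

/-- one parity class -/
theorem aux (s : ℕ → ℤ → ℝ) (x0 : ℤ → ℝ) (r : ℕ → ℝ) (K ε δ q : ℝ) (N n : ℕ) (hK : 0 < K)
    (hr : ∀ n, 0 ≤ r n) (hq0 : 0 ≤ q) (hq1 : q < 1) (hq : q ^ 2 = K / (1 + K)) (hanti : Antitone r)
    (H1 : ∀ n k, |s (n + 3) k - s (n + 1) k| ≤ K * Real.sqrt (r n - r (n + 2)))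
    (H2 : ∀ n ≥ N, (∀ k, |s (n + 1) k - x0 k| ≤ ε) → r (n + 1) ≤ K * (r n - r (n + 2)))
    (hδ : 0 < δ) (hδε : δ ≤ ε) (hn : N ≤ n) (hc : ∀ k, |s (n + 1) k - x0 k| ≤ δ / 2)
    (hA : K * Real.sqrt (r n) ≤ δ / 2 * (1 - q)) (i : ℕ) :
    (∀ k, |s (n + 1 + 2 * i) k - s (n + 1) k| ≤ δ / 2 * (1 - q ^ i)) ∧
      r (n + 2 * i) ≤ q ^ (2 * i) * r n := by
  induction i with
  | zero => simp
  | succ i ih =>
    obtain ⟨h1, h2⟩ := ih
    have hqi : 0 ≤ q ^ i := pow_nonneg hq0 i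
    have h3 : ∀ k, |s (n + 2 * i + 1) k - x0 k| ≤ ε := by
      intro k
      have e1 : n + 2 * i + 1 = n + 1 + 2 * i := by ring
      rw [e1]
      calc |s (n + 1 + 2 * i) k - x0 k| =
          |(s (n + 1 + 2 * i) k - s (n + 1) k) + (s (n + 1) k - x0 k)| := by congr 1; ring
        _ ≤ |s (n + 1 + 2 * i) k - s (n + 1) k| + |s (n + 1) k - x0 k| := abs_add_le _ _
        _ ≤ δ / 2 * (1 - q ^ i) + δ / 2 := add_le_add (h1 k) (hc k)
        _ ≤ ε := by nlinarith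
    have h4 := H2 (n + 2 * i) (by omega) h3
    have h5 : r (n + 2 * i + 2) ≤ r (n + 2 * i + 1) := hanti (by omega)
    have h6 : (1 + K) * r (n + 2 * i + 2) ≤ K * r (n + 2 * i) := by nlinarith
    have h7 : r (n + 2 * i + 2) ≤ q ^ 2 * r (n + 2 * i) := by
      rw [hq, div_mul_eq_mul_div, le_div_iff₀ (by linarith)]
      linarith
    refine ⟨fun k => ?_, ?_⟩
    · have h8 := H1 (n + 2 * i) k
      have h9 : Real.sqrt (r (n + 2 * i) - r (n + 2 * i + 2)) ≤ q ^ i * Real.sqrt (r n) := by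
        rw [Real.sqrt_le_left (by positivity), mul_pow, Real.sq_sqrt (hr n), ← pow_mul,
          mul_comm i 2]
        have := hr (n + 2 * i + 2)
        linarith
      have e1 : n + 1 + 2 * (i + 1) = n + 2 * i + 3 := by ring
      have e2 : n + 1 + 2 * i = n + 2 * i + 1 := by ring
      have h10 := h1 k
      rw [e2] at h10
      rw [e1]
      calc |s (n + 2 * i + 3) k - s (n + 1) k| =
          |(s (n + 2 * i + 3) k - s (n + 2 * i + 1) k) + (s (n + 2 * i + 1) k - s (n + 1) k)| := by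
            congr 1; ring
        _ ≤ |s (n + 2 * i + 3) k - s (n + 2 * i + 1) k| + |s (n + 2 * i + 1) k - s (n + 1) k| :=
            abs_add_le _ _
        _ ≤ K * (q ^ i * Real.sqrt (r n)) + δ / 2 * (1 - q ^ i) :=
            add_le_add (h8.trans (mul_le_mul_of_nonneg_left h9 hK.le)) h10
        _ ≤ δ / 2 * (1 - q ^ (i + 1)) := by
            have h11 : q ^ i * (K * Real.sqrt (r n)) ≤ q ^ i * (δ / 2 * (1 - q)) :=
              mul_le_mul_of_nonneg_left hA hqi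
            rw [pow_succ]
            nlinarith
    · have e1 : n + 2 * (i + 1) = n + 2 * i + 2 := by ring
      rw [e1]
      calc r (n + 2 * i + 2) ≤ q ^ 2 * r (n + 2 * i) := h7
        _ ≤ q ^ 2 * (q ^ (2 * i) * r n) := mul_le_mul_of_nonneg_left h2 (by positivity)
        _ = q ^ (2 * (i + 1)) * r n := by ring

/-- brick DYN -/
theorem t_DYN : S_DYN := by
  intro s x0 r K ε N hK hε hr hanti hlim H1 H2 H3 ε' hε'
  have hθ0 : 0 ≤ K / (1 + K) := by positivity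
  have hθ1 : K / (1 + K) < 1 := by
    rw [div_lt_one (by linarith)]
    linarith
  obtain ⟨q, hq0, hq1, hq⟩ : ∃ q : ℝ, 0 ≤ q ∧ q < 1 ∧ q ^ 2 = K / (1 + K) := by
    refine ⟨Real.sqrt (K / (1 + K)), Real.sqrt_nonneg _, ?_, Real.sq_sqrt hθ0⟩
    rw [Real.sqrt_lt' one_pos]
    linarith
  set δ : ℝ := min ε' ε with hδd
  have hδ : 0 < δ := lt_min hε' hε
  -- the choice of `N0`
  have hlim' : Tendsto (fun n => K * Real.sqrt (r n)) atTop (𝓝 0) := by
    have h1 := (Real.continuous_sqrt.tendsto 0).comp hlim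
    rw [Real.sqrt_zero] at h1
    have h2 := h1.const_mul K
    rw [mul_zero] at h2
    exact h2
  have hpos : 0 < δ / 2 * (1 - q) := mul_pos (by linarith) (by linarith)
  obtain ⟨N0, hN0⟩ := eventually_atTop.1 (hlim'.eventually (gt_mem_nhds hpos))
  obtain ⟨n0, hn0, hc⟩ := H3 (δ / 2) (by linarith) (max N0 N + 1)
  have hmain : ∀ m, max N0 N ≤ m → (∀ k, |s (m + 1) k - x0 k| ≤ δ / 2) → ∀ i k,
      |s (m + 1 + 2 * i) k - x0 k| ≤ ε' := by
    intro m hm hcm i k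
    have h1 := (aux s x0 r K ε δ q N m hK hr hq0 hq1 hq hanti H1 H2 hδ (min_le_right _ _)
      (le_trans (le_max_right _ _) hm) hcm (hN0 m (le_trans (le_max_left _ _) hm)).le i).1 k
    have hqi : 0 ≤ q ^ i := pow_nonneg hq0 i
    calc |s (m + 1 + 2 * i) k - x0 k| =
        |(s (m + 1 + 2 * i) k - s (m + 1) k) + (s (m + 1) k - x0 k)| := by congr 1; ring
      _ ≤ |s (m + 1 + 2 * i) k - s (m + 1) k| + |s (m + 1) k - x0 k| := abs_add_le _ _
      _ ≤ δ / 2 * (1 - q ^ i) + δ / 2 := add_le_add h1 (hcm k)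
      _ ≤ δ := by nlinarith
      _ ≤ ε' := min_le_left _ _
  obtain ⟨m0, rfl⟩ : ∃ m0, n0 = m0 + 1 := ⟨n0 - 1, by omega⟩
  have hm0 : max N0 N ≤ m0 := by omega
  refine ⟨m0 + 1, fun n hn k => ?_⟩
  rcases Nat.even_or_odd (n - (m0 + 1)) with ⟨i, hi⟩ | ⟨i, hi⟩
  · have e1 : n = m0 + 1 + 2 * i := by omega
    rw [e1]
    exact hmain m0 hm0 (fun k => (hc k).1) i k
  · have e1 : n = m0 + 1 + 1 + 2 * i := by omega
    rw [e1]
    exact hmain (m0 + 1) (by omega) (fun k => (hc k).2) i k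

end Pool.Agent.K3h35.LT
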