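import Pool.Agent.K3h2.LT.Stm3

/-! Project LT (MP_e9f8c5_pr), brick ONE for d = 3: consecutive terms are close (after helper4). -/

set_option autoImplicit false

open Filter Topology

namespace Pool.Agent.K3h35.LT

open Pool.Agent.K3h2.LT

/-- Brick ONE3 -/
theorem t_ONE3 : S_SUB → S3_FIX → S_UNI → S3_ONE := by
  intro hSUB hFIX hUNI C L s lam hO ε hε
  by_contra hcon
  push Not at hcon
  choose φ hφ κ hκ using hcon
  have hC : 0 ≤ C := zero_le_one.trans hO.Cpos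
  have hφt : Tendsto φ atTop atTop := tendsto_atTop_mono hφ tendsto_id
  have hbd : ∀ n k, |s (φ n) k| ≤ C := by
    intro n k
    rw [abs_of_nonneg (hO.nonneg _ _)]
    refine (hO.dom _ _).trans ?_
    have h1 : ((1 : ℝ) / 2) ^ k.natAbs ≤ 1 := pow_le_one₀ (by norm_num) (by norm_num)
    calc C * (1 / 2) ^ k.natAbs ≤ C * 1 := mul_le_mul_of_nonneg_left h1 hC
      _ = C := mul_one C
  obtain ⟨ψ, x, hψ, hx⟩ := hSUB (fun n k => s (φ n) k) C hbd
  have hφψ : Tendsto (fun j => φ (ψ j)) atTop atTop := hφt.comp hψ.tendsto_atTop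
  obtain ⟨-, hx'⟩ := hFIX.1 C L s lam hO (fun j => φ (ψ j)) x hφψ hx
  obtain ⟨N1, h1⟩ := (hUNI C (fun j k => s (φ (ψ j)) k) x
    (fun n k => ⟨hO.nonneg _ _, hO.dom _ _⟩) hx).1 (ε / 2) (by linarith)
  obtain ⟨N2, h2⟩ := (hUNI C (fun j k => s (φ (ψ j) + 1) k) x
    (fun n k => ⟨hO.nonneg _ _, hO.dom _ _⟩) hx').1 (ε / 2) (by linarith)
  obtain ⟨j, hj⟩ : ∃ j, j = max N1 N2 := ⟨_, rfl⟩
  have a1 := h1 j (by rw [hj]; exact le_max_left _ _) (κ (ψ j))
  have a2 := h2 j (by rw [hj]; exact le_max_right _ _) (κ (ψ j))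
  have a3 := hκ (ψ j)
  have a4 := abs_le.1 a1
  have a5 := abs_le.1 a2
  have a6 : |s (φ (ψ j) + 1) (κ (ψ j)) - s (φ (ψ j)) (κ (ψ j))| ≤ ε := by
    rw [abs_le]
    constructor <;> linarith [a4.1, a4.2, a5.1, a5.2]
  linarith

end Pool.Agent.K3h35.LT
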